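import Pool.Agent.helper37.NG.Spec

/-!
# G31 (project NG, second prover)
-/

set_option autoImplicit false

namespace Pool.Agent.helper37.NG

open Finset Pool.Agent.NK Pool.Agent.helper37.NF

theorem G31 (h1 : AVG_stmt) (h2 : BA3_stmt) (h3 : RE3_stmt) (h4 : LC3_stmt) : G31_stmt := by
  intro a b i j hi hj hab
  refine h1 i j (3 * (i + j)) _ (by omega) (by omega) (by omega) ?_ a b hab
  intro a b hab
  obtain ⟨s, hs⟩ : ∃ s, i + j = s + 2 := ⟨i + j - 2, by omega⟩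
  have e1 : (a.choose i : ℝ) * (b.choose j : ℝ) ≤ 15 * (c3 s : ℝ) := by
    have h5 := h2 a b i j (by omega) (by omega) hab
    have h6 := h4 i j hi hj
    have h7 : i + j - 2 = s := by omega
    rw [h7] at h6
    exact_mod_cast h5.trans h6
  have e2 : (((3 * (i + j)).choose (i + j) : ℕ) : ℝ) = (c3 (s + 1 + 1) : ℝ) := by
    rw [hs]
    rfl
  have e3 := h3 (s + 1)
  have e4 := h3 s
  rw [e2, e3, e4, hs]
  refine e1.trans (le_of_eq ?_)
  have hs0 : (0 : ℝ) ≤ (s : ℝ) := Nat.cast_nonneg s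
  have p1 : (3 * (s : ℝ) + 1) ≠ 0 := by positivity
  have p2 : (3 * (s : ℝ) + 2) ≠ 0 := by positivity
  have p3 : (3 * (s : ℝ) + 4) ≠ 0 := by positivity
  have p4 : (3 * (s : ℝ) + 5) ≠ 0 := by positivity
  have p5 : (2 * (s : ℝ) + 1) ≠ 0 := by positivity
  have p6 : (2 * (s : ℝ) + 2) ≠ 0 := by positivity
  have p7 : (2 * (s : ℝ) + 3) ≠ 0 := by positivity
  have p8 : (2 * (s : ℝ) + 4) ≠ 0 := by positivity
  have g : g3 ((s + 2 : ℕ) : ℝ) = 20 * ((s : ℝ) + 2) * (s + 1) * (2 * s + 3) * (2 * s + 1) /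
      (3 * (3 * s + 1) * (3 * s + 2) * (3 * s + 4) * (3 * s + 5)) := by
    unfold g3
    push_cast
    congr 1 <;> ring
  have s1 : sig ((s + 1 : ℕ) : ℝ) = 3 * (3 * (s : ℝ) + 4) * (3 * s + 5) / ((2 * s + 3) * (2 * s + 4)) := by
    unfold sig
    push_cast
    congr 1 <;> ring
  have s0 : sig (s : ℝ) = 3 * (3 * (s : ℝ) + 1) * (3 * s + 2) / ((2 * s + 1) * (2 * s + 2)) := rfl
  rw [g, s1, s0]
  field_simp
  ring

end Pool.Agent.helper37.NG
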